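import Pool.Agent.H56.FD.Defs

/-!
# Project FD, gap theorem, route 2: the size of the entries and the choice of the parameters
-/

namespace Pool.Agent.H76.FD

open Finset H56FD

theorem log_lcmUpto_le (Y : ℕ) : Real.log (Nat.lcmUpto Y) ≤ 6 * Y := by
  rw [← Chebyshev.psi_eq_log_lcmUpto]
  refine (Chebyshev.psi_le_const_mul_self (Nat.cast_nonneg Y)).trans ?_
  have h4 : Real.log 4 ≤ 2 := by
    rw [show (4 : ℝ) = 2 ^ 2 by norm_num, Real.log_pow]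
    have := Real.log_two_lt_d9
    push_cast
    linarith
  exact mul_le_mul_of_nonneg_right (by linarith) (Nat.cast_nonneg _)

theorem KK_pos {Y Z B e : ℕ} (hZ : 1 ≤ Z) : 0 < KK Y Z B e := by
  unfold KK
  refine Nat.mul_pos (Nat.mul_pos (pow_pos (Nat.lcmUpto_pos Y) _) (pow_pos two_pos _)) ?_
  refine Finset.prod_pos fun n hn => ?_
  rw [mem_Icc] at hn
  have : 0 < 3 * n * Z := by
    have h1 : 0 < n := by omega
    positivity
  positivity

/-- The size of the entries. -/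
theorem log_KK_le {Y Z B e : ℕ} (hZ : 1 ≤ Z) (hB : 1 ≤ B) :
    Real.log (KK Y Z B e) ≤ ((e : ℝ) + B) * (6 * Y) + ((Z : ℝ) * Y + Y) +
      B * ((B : ℝ) * (Z * Y) * 3 + 2 * B + (B : ℝ) * (Z * Y) * Real.log (3 * B * Z)) := by
  have hl2 : Real.log 2 ≤ 1 := by
    have := Real.log_two_lt_d9
    linarith
  have hl4 : Real.log 4 ≤ 2 := by
    rw [show (4 : ℝ) = 2 ^ 2 by norm_num, Real.log_pow]
    push_cast
    linarith
  have hl8 : Real.log 8 ≤ 3 := by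
    rw [show (8 : ℝ) = 2 ^ 3 by norm_num, Real.log_pow]
    push_cast
    linarith
  have hlam : (0 : ℝ) < (Nat.lcmUpto Y : ℝ) := by exact_mod_cast Nat.lcmUpto_pos Y
  have hZ' : (1 : ℝ) ≤ Z := by exact_mod_cast hZ
  have hB' : (1 : ℝ) ≤ B := by exact_mod_cast hB
  have hfac : ∀ n ∈ Icc 1 B, (0 : ℝ) < 8 ^ (n * (Z * Y)) * 4 ^ n * (3 * n * Z) ^ (n * (Z * Y)) := by
    intro n hn
    rw [mem_Icc] at hn
    have hn' : (1 : ℝ) ≤ n := by exact_mod_cast hn.1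
    positivity
  have hprod : (0 : ℝ) < ∏ n ∈ Icc 1 B, ((8 : ℝ) ^ (n * (Z * Y)) * 4 ^ n * (3 * n * Z) ^ (n * (Z * Y))) :=
    Finset.prod_pos hfac
  unfold KK
  push_cast
  rw [Real.log_mul (by positivity) hprod.ne', Real.log_mul (by positivity) (by positivity),
    Real.log_pow, Real.log_pow, Real.log_prod (fun n hn => (hfac n hn).ne')]
  refine add_le_add (add_le_add ?_ ?_) ?_
  · push_cast
    exact mul_le_mul_of_nonneg_left (log_lcmUpto_le Y) (by positivity)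
  · push_cast
    calc ((Z : ℝ) * Y + Y) * Real.log 2 ≤ ((Z : ℝ) * Y + Y) * 1 :=
          mul_le_mul_of_nonneg_left hl2 (by positivity)
      _ = _ := by ring
  · have hb : ∀ n ∈ Icc 1 B, Real.log ((8 : ℝ) ^ (n * (Z * Y)) * 4 ^ n * (3 * n * Z) ^ (n * (Z * Y))) ≤
        (B : ℝ) * (Z * Y) * 3 + 2 * B + (B : ℝ) * (Z * Y) * Real.log (3 * B * Z) := by
      intro n hn
      rw [mem_Icc] at hn
      have hn' : (1 : ℝ) ≤ n := by exact_mod_cast hn.1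
      have hnB : (n : ℝ) ≤ B := by exact_mod_cast hn.2
      have hpos : (0 : ℝ) < 3 * n * Z := by positivity
      rw [Real.log_mul (by positivity) (by positivity), Real.log_mul (by positivity) (by positivity),
        Real.log_pow, Real.log_pow, Real.log_pow]
      have h1 : Real.log (3 * n * Z) ≤ Real.log (3 * B * Z) := by
        refine Real.log_le_log hpos ?_
        gcongr
      have h0 : 0 ≤ Real.log (3 * n * Z) := by
        refine Real.log_nonneg ?_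
        nlinarith
      push_cast
      have hZY : (0 : ℝ) ≤ (Z : ℝ) * Y := by positivity
      have hl8' : 0 ≤ Real.log 8 := Real.log_nonneg (by norm_num)
      have hl4' : 0 ≤ Real.log 4 := Real.log_nonneg (by norm_num)
      have e1 : (n : ℝ) * (Z * Y) * Real.log 8 ≤ (B : ℝ) * (Z * Y) * 3 :=
        mul_le_mul (mul_le_mul_of_nonneg_right hnB hZY) hl8 hl8' (by positivity)
      have e2 : (n : ℝ) * Real.log 4 ≤ 2 * B := by
        calc (n : ℝ) * Real.log 4 ≤ B * 2 := mul_le_mul hnB hl4 hl4' (by positivity)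
          _ = 2 * B := by ring
      have e3 : (n : ℝ) * (Z * Y) * Real.log (3 * n * Z) ≤ (B : ℝ) * (Z * Y) * Real.log (3 * B * Z) :=
        mul_le_mul (mul_le_mul_of_nonneg_right hnB hZY) h1 h0 (by positivity)
      linarith
    refine (Finset.sum_le_sum hb).trans (le_of_eq ?_)
    rw [Finset.sum_const, Nat.card_Icc, Nat.add_sub_cancel, nsmul_eq_mul]

theorem le_two_pow (r : ℕ) (hr : 64 ≤ r) : 2 * r ^ 18 ≤ 2 ^ (r ^ 2) := by
  have h1 := H8FD.pow_nine_le r hr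
  calc 2 * r ^ 18 = 2 * (r ^ 9) ^ 2 := by ring
    _ ≤ 2 * (2 ^ (r - 1)) ^ 2 := Nat.mul_le_mul_left _ (Nat.pow_le_pow_left h1 2)
    _ = 2 ^ ((r - 1) * 2 + 1) := by rw [← pow_mul, pow_succ]; ring
    _ ≤ 2 ^ (r ^ 2) := by
        refine Nat.pow_le_pow_right two_pos ?_
        have : (r - 1) * 2 + 1 ≤ 2 * r := by omega
        nlinarith

/-- **The parameters**: `B = r^3`, `Z₁ = r^6`, `e = r^12`, `Y ~ X / r^14`. -/
theorem par (ε : ℝ) (hε : 0 < ε) : ∃ r₀ : ℕ, 64 ≤ r₀ ∧ ∀ r : ℕ, r₀ ≤ r → ∃ X₀ : ℕ, ∀ X : ℕ, X₀ ≤ X →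
    ∃ Y : ℕ, 1 ≤ Y ∧ 2 * r ^ 12 * r ^ 6 ≤ 2 ^ (r ^ 2) ∧
      Y + r ^ 3 * ((X - 1) / 2) ≤ r ^ 12 * (r ^ 6 * Y) ∧
      2 * Real.log (((2 * r ^ 12 * r ^ 6 : ℕ) : ℝ) * Y * (KK Y (3 * r ^ 6) (r ^ 3) (r ^ 12) : ℝ)) ≤ ε / 2 * X ∧
      Chebyshev.theta ((r ^ 3 * (3 * r ^ 6 * Y) : ℕ) : ℝ) ≤ ε / 2 * X ∧
      (2 * r ^ 12 * r ^ 6) * (Y + (2 * r ^ 12 * r ^ 6) * (r ^ 3) ^ 2) <
        r ^ 12 * (3 * r ^ 6 * Y - 2 * r ^ 12 * r ^ 6) ∧
      r ^ 12 < r ^ 3 * (3 * r ^ 6 * Y) ∧ 2 < r ^ 3 * (3 * r ^ 6 * Y) := by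
  obtain ⟨r₁, hr₁⟩ := exists_nat_ge (1000 / ε)
  refine ⟨max 64 r₁, le_max_left _ _, fun r hr => ?_⟩
  have hr64 : 64 ≤ r := (le_max_left _ _).trans hr
  have hrr : r₁ ≤ r := (le_max_right _ _).trans hr
  have hr0 : 0 < r := by omega
  have hr64' : (64 : ℝ) ≤ r := by exact_mod_cast hr64
  have hr0' : (0 : ℝ) < r := by linarith
  have hrε : 1000 ≤ ε * r := by
    have h1 : 1000 / ε ≤ r := hr₁.trans (by exact_mod_cast hrr)
    rw [div_le_iff₀ hε] at h1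
    linarith
  refine ⟨5 * r ^ 39, fun X hX => ⟨X / r ^ 14 + 1, Nat.succ_pos _, ?_, ?_⟩⟩
  · rw [mul_assoc, ← pow_add]
    exact le_two_pow r hr64
  set Y := X / r ^ 14 + 1 with hY
  have hY1 : 1 ≤ Y := Nat.succ_pos _
  have hY1' : (1 : ℝ) ≤ Y := by exact_mod_cast hY1
  have hXY : X < r ^ 14 * Y := by
    rw [hY]
    have := Nat.lt_div_mul_add (a := X) (b := r ^ 14) (by positivity)
    linarith
  have hYb : 5 * r ^ 25 ≤ Y := by
    have h1 : 5 * r ^ 25 ≤ X / r ^ 14 := by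
      rw [Nat.le_div_iff_mul_le (by positivity)]
      calc 5 * r ^ 25 * r ^ 14 = 5 * r ^ 39 := by ring
        _ ≤ X := hX
    omega
  -- `r^14 Y ≤ 2 X`
  have hYX : (r : ℝ) ^ 14 * Y ≤ 2 * X := by
    have h1 : r ^ 14 * (X / r ^ 14) ≤ X := Nat.mul_div_le _ _
    have h2 : r ^ 14 ≤ X := by
      have h3 : r ^ 14 ≤ r ^ 39 := Nat.pow_le_pow_right hr0 (by norm_num)
      omega
    have h3 : r ^ 14 * Y ≤ 2 * X := by
      rw [hY]
      linarith
    exact_mod_cast h3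
  -- `1000 r^13 Y ≤ 2 ε X`
  have hmain : 1000 * ((r : ℝ) ^ 13 * Y) ≤ 2 * ε * X := by
    calc 1000 * ((r : ℝ) ^ 13 * Y) ≤ (ε * r) * ((r : ℝ) ^ 13 * Y) :=
          mul_le_mul_of_nonneg_right hrε (by positivity)
      _ = ε * ((r : ℝ) ^ 14 * Y) := by ring
      _ ≤ ε * (2 * X) := mul_le_mul_of_nonneg_left hYX hε.le
      _ = 2 * ε * X := by ring
  have hp : ∀ a b : ℕ, a ≤ b → (r : ℝ) ^ a * Y ≤ (r : ℝ) ^ b * Y := fun a b hab =>
    mul_le_mul_of_nonneg_right (pow_le_pow_right₀ (by linarith) hab) (by positivity)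
  refine ⟨?_, ?_, ?_, ?_, ?_, ?_⟩
  · -- the degree
    have h1 : r ^ 3 * ((X - 1) / 2) ≤ r ^ 3 * (r ^ 14 * Y) :=
      Nat.mul_le_mul_left _ (by omega)
    have h2 : Y ≤ r ^ 17 * Y := Nat.le_mul_of_pos_left _ (by positivity)
    have h3 : 2 * r ^ 17 ≤ r ^ 18 := by
      rw [pow_succ r 17]
      nlinarith [pow_pos hr0 17]
    calc Y + r ^ 3 * ((X - 1) / 2) ≤ r ^ 17 * Y + r ^ 3 * (r ^ 14 * Y) := add_le_add h2 h1
      _ = 2 * r ^ 17 * Y := by ring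
      _ ≤ r ^ 18 * Y := Nat.mul_le_mul_right _ h3
      _ = r ^ 12 * (r ^ 6 * Y) := by ring
  · -- the size
    have hKpos : (0 : ℝ) < (KK Y (3 * r ^ 6) (r ^ 3) (r ^ 12) : ℝ) := by
      exact_mod_cast KK_pos (by have : 0 < r ^ 6 := by positivity
                                omega)
    have hK := log_KK_le (Y := Y) (Z := 3 * r ^ 6) (B := r ^ 3) (e := r ^ 12)
      (by have : 0 < r ^ 6 := by positivity
          omega) (Nat.one_le_pow _ _ hr0)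
    push_cast at hK
    push_cast
    rw [Real.log_mul (by positivity) hKpos.ne', Real.log_mul (by positivity) (by positivity)]
    have hlr : Real.log r ≤ r := (Real.log_le_sub_one_of_pos hr0').trans (by linarith)
    have hlY : Real.log Y ≤ Y := (Real.log_le_sub_one_of_pos (by linarith)).trans (by linarith)
    have hl1 : Real.log (2 * r ^ 12 * r ^ 6 : ℝ) ≤ 19 * r := by
      rw [show (2 * r ^ 12 * r ^ 6 : ℝ) = 2 * r ^ 18 by ring, Real.log_mul (by norm_num) (by positivity),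
        Real.log_pow]
      have := Real.log_two_lt_d9
      push_cast
      linarith
    have hl2 : Real.log (3 * r ^ 3 * (3 * r ^ 6) : ℝ) ≤ 12 * r := by
      rw [show (3 * r ^ 3 * (3 * r ^ 6) : ℝ) = 9 * r ^ 9 by ring, Real.log_mul (by norm_num) (by positivity),
        Real.log_pow]
      have h9 : Real.log 9 ≤ 8 := (Real.log_le_sub_one_of_pos (by norm_num)).trans (by norm_num)
      push_cast
      linarith
    have hr3 : (0 : ℝ) ≤ (r : ℝ) ^ 3 := by positivity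
    have hK2 : Real.log (KK Y (3 * r ^ 6) (r ^ 3) (r ^ 12) : ℝ) ≤ 70 * ((r : ℝ) ^ 13 * Y) := by
      refine hK.trans ?_
      have e1 : ((r : ℝ) ^ 12 + r ^ 3) * (6 * Y) ≤ 6 * ((r : ℝ) ^ 13 * Y) + 6 * ((r : ℝ) ^ 13 * Y) := by
        have := hp 12 13 (by norm_num)
        have := hp 3 13 (by norm_num)
        linarith
      have e2 : (3 * (r : ℝ) ^ 6) * Y + Y ≤ 3 * ((r : ℝ) ^ 13 * Y) + (r : ℝ) ^ 13 * Y := by
        have := hp 6 13 (by norm_num)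
        have := hp 0 13 (by norm_num)
        rw [pow_zero, one_mul] at this
        linarith
      have e3 : (r : ℝ) ^ 3 * ((r : ℝ) ^ 3 * (3 * r ^ 6 * Y) * 3 + 2 * r ^ 3 +
          (r : ℝ) ^ 3 * (3 * r ^ 6 * Y) * Real.log (3 * r ^ 3 * (3 * r ^ 6))) ≤
          9 * ((r : ℝ) ^ 13 * Y) + 2 * ((r : ℝ) ^ 13 * Y) + 36 * ((r : ℝ) ^ 13 * Y) := by
        have f1 : (r : ℝ) ^ 3 * ((r : ℝ) ^ 3 * (3 * r ^ 6 * Y) * 3) ≤ 9 * ((r : ℝ) ^ 13 * Y) := by
          calc (r : ℝ) ^ 3 * ((r : ℝ) ^ 3 * (3 * r ^ 6 * Y) * 3) = 9 * ((r : ℝ) ^ 12 * Y) := by ring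
            _ ≤ 9 * ((r : ℝ) ^ 13 * Y) := mul_le_mul_of_nonneg_left (hp 12 13 (by norm_num)) (by norm_num)
        have f2 : (r : ℝ) ^ 3 * (2 * r ^ 3) ≤ 2 * ((r : ℝ) ^ 13 * Y) := by
          calc (r : ℝ) ^ 3 * (2 * r ^ 3) = 2 * ((r : ℝ) ^ 6 * 1) := by ring
            _ ≤ 2 * ((r : ℝ) ^ 6 * Y) := by gcongr
            _ ≤ 2 * ((r : ℝ) ^ 13 * Y) := mul_le_mul_of_nonneg_left (hp 6 13 (by norm_num)) (by norm_num)
        have f3 : (r : ℝ) ^ 3 * ((r : ℝ) ^ 3 * (3 * r ^ 6 * Y) * Real.log (3 * r ^ 3 * (3 * r ^ 6))) ≤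
            36 * ((r : ℝ) ^ 13 * Y) := by
          calc (r : ℝ) ^ 3 * ((r : ℝ) ^ 3 * (3 * r ^ 6 * Y) * Real.log (3 * r ^ 3 * (3 * r ^ 6)))
              ≤ (r : ℝ) ^ 3 * ((r : ℝ) ^ 3 * (3 * r ^ 6 * Y) * (12 * r)) := by gcongr
            _ = 36 * ((r : ℝ) ^ 13 * Y) := by ring
        calc (r : ℝ) ^ 3 * ((r : ℝ) ^ 3 * (3 * r ^ 6 * Y) * 3 + 2 * r ^ 3 +
              (r : ℝ) ^ 3 * (3 * r ^ 6 * Y) * Real.log (3 * r ^ 3 * (3 * r ^ 6)))
            = (r : ℝ) ^ 3 * ((r : ℝ) ^ 3 * (3 * r ^ 6 * Y) * 3) + (r : ℝ) ^ 3 * (2 * r ^ 3) +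
              (r : ℝ) ^ 3 * ((r : ℝ) ^ 3 * (3 * r ^ 6 * Y) * Real.log (3 * r ^ 3 * (3 * r ^ 6))) := by ring
          _ ≤ _ := by linarith
      have e0 : (0 : ℝ) ≤ (r : ℝ) ^ 13 * Y := by positivity
      linarith
    have hr13 : (r : ℝ) ≤ (r : ℝ) ^ 13 * Y := by
      calc (r : ℝ) = (r : ℝ) ^ 1 * 1 := by ring
        _ ≤ (r : ℝ) ^ 1 * Y := by gcongr
        _ ≤ (r : ℝ) ^ 13 * Y := hp 1 13 (by norm_num)
    have hY13 : (Y : ℝ) ≤ (r : ℝ) ^ 13 * Y := by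
      have := hp 0 13 (by norm_num)
      rwa [pow_zero, one_mul] at this
    linarith
  · -- the small primes
    refine (Chebyshev.theta_le_log4_mul_x (Nat.cast_nonneg _)).trans ?_
    have h4 : Real.log 4 ≤ 2 := by
      rw [show (4 : ℝ) = 2 ^ 2 by norm_num, Real.log_pow]
      have := Real.log_two_lt_d9
      push_cast
      linarith
    push_cast
    calc Real.log 4 * ((r : ℝ) ^ 3 * (3 * r ^ 6 * Y)) ≤ 2 * ((r : ℝ) ^ 3 * (3 * r ^ 6 * Y)) := by gcongr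
      _ = 6 * ((r : ℝ) ^ 9 * Y) := by ring
      _ ≤ 6 * ((r : ℝ) ^ 13 * Y) := mul_le_mul_of_nonneg_left (hp 9 13 (by norm_num)) (by norm_num)
      _ ≤ ε / 2 * X := by
          have e0 : (0 : ℝ) ≤ (r : ℝ) ^ 13 * Y := by positivity
          linarith
  · -- the zero estimate
    have h1 : 2 * r ^ 12 * r ^ 6 ≤ 3 * r ^ 6 * Y := by
      calc 2 * r ^ 12 * r ^ 6 = r ^ 6 * (2 * r ^ 12) := by ring
        _ ≤ r ^ 6 * (3 * Y) := by
            refine Nat.mul_le_mul_left _ ?_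
            have : r ^ 12 ≤ r ^ 25 := Nat.pow_le_pow_right hr0 (by norm_num)
            omega
        _ = 3 * r ^ 6 * Y := by ring
    have h2 : r ^ 12 * (3 * r ^ 6 * Y - 2 * r ^ 12 * r ^ 6) + 2 * r ^ 30 = 3 * r ^ 18 * Y := by
      obtain ⟨q, hq⟩ := Nat.exists_eq_add_of_le h1
      rw [hq, Nat.add_sub_cancel_left]
      calc r ^ 12 * q + 2 * r ^ 30 = r ^ 12 * (2 * r ^ 12 * r ^ 6 + q) := by ring
        _ = r ^ 12 * (3 * r ^ 6 * Y) := by rw [hq]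
        _ = 3 * r ^ 18 * Y := by ring
    have h3 : (2 * r ^ 12 * r ^ 6) * (Y + (2 * r ^ 12 * r ^ 6) * (r ^ 3) ^ 2) + 2 * r ^ 30 < 3 * r ^ 18 * Y := by
      have h4 : 5 * r ^ 24 < Y := by
        have : r ^ 24 < r ^ 25 := Nat.pow_lt_pow_right (by omega) (by norm_num)
        omega
      have h5 : r ^ 18 * (5 * r ^ 24) < r ^ 18 * Y := Nat.mul_lt_mul_of_pos_left h4 (by positivity)
      have h6 : 2 * r ^ 30 ≤ r ^ 42 := by
        have h7 : r ^ 31 ≤ r ^ 42 := Nat.pow_le_pow_right hr0 (by norm_num)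
        have h8 : 2 * r ^ 30 ≤ r ^ 31 := by
          rw [pow_succ r 30]
          nlinarith [pow_pos hr0 30]
        omega
      calc (2 * r ^ 12 * r ^ 6) * (Y + (2 * r ^ 12 * r ^ 6) * (r ^ 3) ^ 2) + 2 * r ^ 30
          = 2 * r ^ 18 * Y + 4 * r ^ 42 + 2 * r ^ 30 := by ring
        _ ≤ 2 * r ^ 18 * Y + 4 * r ^ 42 + r ^ 42 := by omega
        _ = 2 * r ^ 18 * Y + r ^ 18 * (5 * r ^ 24) := by ring
        _ < 2 * r ^ 18 * Y + r ^ 18 * Y := by omega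
        _ = 3 * r ^ 18 * Y := by ring
    omega
  · calc r ^ 12 < r ^ 25 := Nat.pow_lt_pow_right (by omega) (by norm_num)
      _ ≤ Y := by omega
      _ = 1 * Y := (one_mul _).symm
      _ ≤ (3 * r ^ 9) * Y := Nat.mul_le_mul_right _ (by have : 0 < r ^ 9 := by positivity
                                                        omega)
      _ = r ^ 3 * (3 * r ^ 6 * Y) := by ring
  · calc 2 < 3 * 1 := by norm_num
      _ ≤ 3 * (r ^ 9 * Y) := Nat.mul_le_mul_left _ (Nat.mul_pos (by positivity) hY1)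
      _ = r ^ 3 * (3 * r ^ 6 * Y) := by ring

end Pool.Agent.H76.FD
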