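import Mathlib

/-!
# FD: Chebyshev type sums (upper bounds without the prime number theorem)
-/

set_option autoImplicit false

namespace Pool.Agent.H76.FD

open Finset Filter Topology

/-- `⌊x / q⌋` counts the `j` with `j q ≤ x`. -/
theorem div_eq_card {x y q : ℕ} (hq : y < q) :
    x / q = ((Icc 1 (x / (y + 1))).filter (fun j => q ≤ x / j)).card := by
  have hq0 : 0 < q := by omega
  have e : (Icc 1 (x / (y + 1))).filter (fun j => q ≤ x / j) = Icc 1 (x / q) := by
    ext j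
    simp only [mem_filter, mem_Icc]
    constructor
    · rintro ⟨⟨h1, _⟩, h3⟩
      refine ⟨h1, ?_⟩
      rw [Nat.le_div_iff_mul_le (by omega)] at h3
      rw [Nat.le_div_iff_mul_le hq0, mul_comm]
      exact h3
    · rintro ⟨h1, h2⟩
      refine ⟨⟨h1, h2.trans (Nat.div_le_div_left (by omega) (by omega))⟩, ?_⟩
      rw [Nat.le_div_iff_mul_le hq0] at h2
      rw [Nat.le_div_iff_mul_le (by omega), mul_comm]
      exact h2
  rw [e, Nat.card_Icc, Nat.add_sub_cancel]

/-- `∑_{y < q ≤ x} ⌊x / q⌋ log q ≤ log 4 * x * (1 + log (x / (y + 1)))` -/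
theorem sum_div_log_le (x y : ℕ) (hxy : y + 1 ≤ x) :
    ∑ q ∈ (Ioc y x).filter Nat.Prime, ((x / q : ℕ) : ℝ) * Real.log q ≤
      Real.log 4 * x * (1 + Real.log (x / (y + 1))) := by
  have h4 : 0 ≤ Real.log 4 := Real.log_nonneg (by norm_num)
  have e1 : ∑ q ∈ (Ioc y x).filter Nat.Prime, ((x / q : ℕ) : ℝ) * Real.log q =
      ∑ j ∈ Icc 1 (x / (y + 1)), ∑ q ∈ (Ioc y x).filter Nat.Prime,
        if q ≤ x / j then Real.log q else 0 := by
    rw [sum_comm]
    refine sum_congr rfl fun q hq => ?_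
    rw [mem_filter, mem_Ioc] at hq
    rw [div_eq_card (x := x) hq.1.1, ← sum_filter, sum_const, nsmul_eq_mul]
  have h2 : ∀ j ∈ Icc 1 (x / (y + 1)), (∑ q ∈ (Ioc y x).filter Nat.Prime,
      if q ≤ x / j then Real.log (q : ℝ) else 0) ≤ Real.log 4 * (x * (j : ℝ)⁻¹) := by
    intro j hj
    rw [mem_Icc] at hj
    have hj0 : (0 : ℝ) < j := by exact_mod_cast hj.1
    have h3 : (∑ q ∈ (Ioc y x).filter Nat.Prime,
        if q ≤ x / j then Real.log (q : ℝ) else 0) ≤ Chebyshev.theta ((x / j : ℕ) : ℝ) := by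
      rw [Chebyshev.theta_eq_sum_primesLE_log, ← sum_filter]
      refine sum_le_sum_of_subset_of_nonneg ?_ fun q _ _ => Real.log_natCast_nonneg q
      intro q hq
      rw [mem_filter, mem_filter] at hq
      rw [Nat.mem_primesLE]
      exact ⟨hq.2, hq.1.2⟩
    refine h3.trans ((Chebyshev.theta_le_log4_mul_x (Nat.cast_nonneg _)).trans ?_)
    refine mul_le_mul_of_nonneg_left ?_ h4
    rw [← div_eq_mul_inv]
    exact Nat.cast_div_le
  rw [e1]
  refine (sum_le_sum h2).trans ?_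
  rw [← mul_sum, ← mul_sum, mul_assoc]
  refine mul_le_mul_of_nonneg_left (mul_le_mul_of_nonneg_left ?_ (Nat.cast_nonneg x)) h4
  have h5 := harmonic_le_one_add_log (x / (y + 1))
  have h6 : ((harmonic (x / (y + 1)) : ℚ) : ℝ) = ∑ j ∈ Icc 1 (x / (y + 1)), ((j : ℝ))⁻¹ := by
    rw [harmonic_eq_sum_Icc]
    push_cast
    rfl
  rw [← h6]
  refine h5.trans ?_
  have h7 : 0 < x / (y + 1) := Nat.div_pos hxy (Nat.succ_pos y)
  have h8 : (((x / (y + 1) : ℕ)) : ℝ) ≤ (x : ℝ) / ((y : ℝ) + 1) := by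
    have := Nat.cast_div_le (α := ℝ) (m := x) (n := y + 1)
    push_cast at this
    exact this
  have := Real.log_le_log (by exact_mod_cast h7) h8
  linarith

/-- `v_q (n!) ≤ 2 ⌊n / q⌋`. -/
theorem padicValNat_factorial_le (q n : ℕ) [hq : Fact q.Prime] :
    padicValNat q n.factorial ≤ 2 * (n / q) := by
  rw [← padicValNat_mul_div_factorial n, padicValNat_factorial_mul]
  rcases Nat.eq_zero_or_pos (n / q) with h | h
  · rw [h]
    simp
  · have := padicValNat_factorial_lt_of_ne_zero q h.ne'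
    omega

/-- `∑_{y < q ≤ x} v_q (x!) log q ≤ 2 log 4 * x * (1 + log (x / (y + 1)))` -/
theorem sum_val_fact_le (x y : ℕ) (hxy : y + 1 ≤ x) :
    ∑ q ∈ (Ioc y x).filter Nat.Prime, (padicValNat q x.factorial : ℝ) * Real.log q ≤
      2 * (Real.log 4 * x * (1 + Real.log (x / (y + 1)))) := by
  refine le_trans ?_ (mul_le_mul_of_nonneg_left (sum_div_log_le x y hxy) (by norm_num))
  rw [mul_sum]
  refine sum_le_sum fun q hq => ?_
  rw [mem_filter] at hq
  have : Fact q.Prime := ⟨hq.2⟩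
  have h1 : (padicValNat q x.factorial : ℝ) ≤ 2 * ((x / q : ℕ) : ℝ) := by
    exact_mod_cast padicValNat_factorial_le q x
  have h2 : 0 ≤ Real.log (q : ℝ) := Real.log_natCast_nonneg q
  nlinarith

/-- Eventually `π(x) log (c x) ≤ 3 x`. -/
theorem pi_mul_log_le (c : ℝ) (hc : 0 < c) : ∀ᶠ x : ℝ in atTop,
    (Nat.primeCounting ⌊x⌋₊ : ℝ) * Real.log (c * x) ≤ 3 * x := by
  have hl : Tendsto (fun x : ℝ => Real.log x) atTop atTop := Real.tendsto_log_atTop
  filter_upwards [Chebyshev.eventually_primeCounting_le (ε := 1 / 10) (by norm_num),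
    hl.eventually_ge_atTop (1 : ℝ), hl.eventually_ge_atTop (10 * |Real.log c|),
    eventually_gt_atTop (0 : ℝ)] with x h1 h2 h3 hx
  have h4 : Real.log (c * x) ≤ 11 / 10 * Real.log x := by
    rw [Real.log_mul hc.ne' hx.ne']
    have := le_abs_self (Real.log c)
    linarith
  have hpi : (0 : ℝ) ≤ Nat.primeCounting ⌊x⌋₊ := Nat.cast_nonneg _
  have hlog4 : Real.log 4 < 1.4 := by
    rw [show (4 : ℝ) = 2 ^ (2 : ℕ) by norm_num, Real.log_pow]
    have := Real.log_two_lt_d9
    push_cast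
    linarith
  have hx0 : 0 < Real.log x := by linarith
  have h6 : (Nat.primeCounting ⌊x⌋₊ : ℝ) * Real.log x ≤ 3 / 2 * x := by
    have h7 := mul_le_mul_of_nonneg_right h1 hx0.le
    rw [div_mul_cancel₀ _ hx0.ne'] at h7
    refine h7.trans ?_
    nlinarith
  calc (Nat.primeCounting ⌊x⌋₊ : ℝ) * Real.log (c * x)
      ≤ Nat.primeCounting ⌊x⌋₊ * (11 / 10 * Real.log x) := mul_le_mul_of_nonneg_left h4 hpi
    _ = 11 / 10 * (Nat.primeCounting ⌊x⌋₊ * Real.log x) := by ring
    _ ≤ 3 * x := by nlinarith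

/-- Contribution of the primes `q ≤ y` when every one loses `log E`. -/
theorem sum_log_le (y E : ℕ) (hE : 1 ≤ E) :
    ∑ q ∈ (Ioc 0 y).filter Nat.Prime, (Nat.log q E : ℝ) * Real.log q ≤
      Nat.primeCounting y * Real.log E := by
  have h1 : ∀ q ∈ (Ioc 0 y).filter Nat.Prime, (Nat.log q E : ℝ) * Real.log q ≤ Real.log E := by
    intro q hq
    rw [mem_filter] at hq
    have h2 : ((q : ℝ)) ^ Nat.log q E ≤ E := by
      exact_mod_cast Nat.pow_log_le_self q (by omega)
    have h3 : (0 : ℝ) < (q : ℝ) ^ Nat.log q E := by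
      have : (0 : ℝ) < q := by exact_mod_cast hq.2.pos
      positivity
    have := Real.log_le_log h3 h2
    rwa [Real.log_pow] at this
  refine (sum_le_sum h1).trans ?_
  rw [sum_const, nsmul_eq_mul]
  refine mul_le_mul_of_nonneg_right ?_ (Real.log_natCast_nonneg E)
  have : ((Ioc 0 y).filter Nat.Prime).card = Nat.primeCounting y := by
    rw [← Nat.primesLE_card_eq_primeCounting]
    congr 1
    ext q
    simp only [mem_filter, mem_Ioc, Nat.mem_primesLE]
    constructor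
    · rintro ⟨⟨_, h3⟩, h4⟩
      exact ⟨h3, h4⟩
    · rintro ⟨h3, h4⟩
      exact ⟨⟨h4.pos, h3⟩, h4⟩
  exact_mod_cast this.le

end Pool.Agent.H76.FD
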